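import Mathlib
import Pool.Agent.H.MP_f21612_lc.A

namespace Pool.Agent.Results.MP_f21612_lc.RelCof

open Set Cardinal

/-- ideal on the natural numbers: proper, contains all finite sets -/
def IsIdeal (I : Set (Set ℕ)) : Prop :=
  (∀ A ∈ I, ∀ B, B ⊆ A → B ∈ I) ∧ (∀ A ∈ I, ∀ B ∈ I, A ∪ B ∈ I) ∧ Set.univ ∉ I ∧
    ∀ A : Set ℕ, A.Finite → A ∈ I

theorem result : ∃ I J : Set (Set ℕ), Maximal IsIdeal I ∧ IsIdeal J ∧ J ⊆ I ∧
    IsLeast {c : Cardinal | ∃ ℬ : Set (Set ℕ), ℬ ⊆ I ∧ #ℬ = c ∧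
      ∀ X ∈ I, ∃ B ∈ ℬ, X ⊆ B} continuum ∧
    IsLeast {c : Cardinal | ∃ 𝒜 : Set (Set ℕ), 𝒜 ⊆ I ∧ #𝒜 = c ∧
      ∀ X ∈ I, ∃ A ∈ 𝒜, X \ A ∈ J} (aleph 1) := by
  obtain ⟨W, u, v, G, hW, hu, hv, hGu, hGv, hcof, hctb, hchar⟩ :=
    Pool.Agent.H.MP_f21612_lc.main
  have hid : ∀ w : Ultrafilter ℕ, (w : Filter ℕ) ≤ Filter.cofinite → IsIdeal {X | X ∉ w} := by
    intro w hw
    refine ⟨fun A hA B hBA hB => hA (Filter.mem_of_superset hB hBA), fun A hA B hB h => ?_,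
      fun h => h Filter.univ_mem, fun A hA => ?_⟩
    · rcases Ultrafilter.union_mem_iff.1 h with h | h
      · exact hA h
      · exact hB h
    · exact Ultrafilter.compl_mem_iff_notMem.1 (hw hA.compl_mem_cofinite)
  haveI : Nonempty W := by
    rw [← Cardinal.mk_ne_zero_iff, hW]; exact (aleph_pos 1).ne'
  have hlow1 : ∀ ℬ : Set (Set ℕ), ℬ ⊆ {X | X ∉ u} → (∀ X ∈ {X | X ∉ u}, ∃ B ∈ ℬ, X ⊆ B) →
      continuum ≤ #ℬ := by
    intro ℬ hB hcf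
    refine (hchar (compl '' ℬ) ?_ ?_).trans mk_image_le
    · rintro _ ⟨B, hB', rfl⟩
      exact Ultrafilter.compl_mem_iff_notMem.2 (hB hB')
    · intro X hX
      obtain ⟨B, hB', h⟩ := hcf Xᶜ (Ultrafilter.compl_notMem_iff.2 hX)
      exact ⟨Bᶜ, mem_image_of_mem _ hB', compl_subset_comm.1 h⟩
  have hlow2 : ∀ 𝒜 : Set (Set ℕ), 𝒜 ⊆ {X | X ∉ u} →
      (∀ X ∈ {X | X ∉ u}, ∃ A ∈ 𝒜, X \ A ∈ {X | ∀ a, X ∉ v a}) → aleph 1 ≤ #𝒜 := by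
    intro 𝒜 hA hcf
    by_contra hlt
    push Not at hlt
    have hc : 𝒜.Countable := by
      rwa [← Cardinal.le_aleph0_iff_set_countable, ← Cardinal.lt_aleph_one_iff]
    obtain ⟨a, ha⟩ := hctb (compl '' 𝒜) (hc.image _) (by
      rintro _ ⟨B, hB', rfl⟩
      exact Ultrafilter.compl_mem_iff_notMem.2 (hA hB'))
    obtain ⟨A, hA', h⟩ := hcf (G a)ᶜ (Ultrafilter.compl_notMem_iff.2 (hGu a))
    exact h a (Filter.inter_mem (Ultrafilter.compl_mem_iff_notMem.2 (hGv a))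
      (ha _ (mem_image_of_mem _ hA')))
  refine ⟨{X | X ∉ u}, {X | ∀ a, X ∉ v a}, ⟨hid u hu, fun I' hI' hle X hX hXu => ?_⟩,
    ⟨fun A hA B hBA a => (hid _ (hv a)).1 A (hA a) B hBA,
      fun A hA B hB a => (hid _ (hv a)).2.1 A (hA a) B (hB a),
      fun h => (hid _ (hv (Classical.arbitrary W))).2.2.1 (h _),
      fun A hA a => (hid _ (hv a)).2.2.2 A hA⟩, fun X hX hXu => ?_, ⟨?_, ?_⟩, ⟨?_, ?_⟩⟩
  · have h1 : Xᶜ ∈ I' := hle (Ultrafilter.compl_notMem_iff.2 hXu)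
    have := hI'.2.1 X hX _ h1
    rw [union_compl_self] at this
    exact hI'.2.2.1 this
  · obtain ⟨a, ha⟩ := hctb {X} (countable_singleton X) (by simpa using hXu)
    exact hX a (ha X rfl)
  · refine ⟨{X | X ∉ u}, Subset.rfl, le_antisymm ?_ (hlow1 _ Subset.rfl fun X hX =>
      ⟨X, hX, Subset.rfl⟩), fun X hX => ⟨X, hX, Subset.rfl⟩⟩
    exact (mk_set_le _).trans (by simp)
  · rintro _ ⟨ℬ, h1, rfl, h2⟩
    exact hlow1 ℬ h1 h2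
  · have h1 : range (fun b => (G b)ᶜ) ⊆ {X | X ∉ u} := by
      rintro _ ⟨b, rfl⟩
      exact Ultrafilter.compl_notMem_iff.2 (hGu b)
    have h2 : ∀ X ∈ {X | X ∉ u}, ∃ A ∈ range (fun b => (G b)ᶜ), X \ A ∈ {X | ∀ a, X ∉ v a} := by
      intro X hX
      obtain ⟨b, hb⟩ := hcof Xᶜ (Ultrafilter.compl_mem_iff_notMem.2 hX)
      refine ⟨(G b)ᶜ, mem_range_self b, fun a h => ?_⟩
      rcases hb a with h' | h'
      · exact Ultrafilter.compl_mem_iff_notMem.1 h' (Filter.mem_of_superset h diff_subset)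
      · exact h' (Filter.mem_of_superset h fun n hn => not_not.1 hn.2)
    exact ⟨_, h1, le_antisymm (mk_range_le.trans hW.le) (hlow2 _ h1 h2), h2⟩
  · rintro _ ⟨𝒜, h1, rfl, h2⟩
    exact hlow2 𝒜 h1 h2

end Pool.Agent.Results.MP_f21612_lc.RelCof
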